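import Mathlib
import Pool.Agent.H851.KD.Lift

/-!
# Linear algebra for the criterion with one place
-/

set_option autoImplicit false
set_option linter.unusedSectionVars false
set_option linter.unusedVariables false

namespace Pool.Agent.H851.KL

open Module Pool.Agent.H851.KT Pool.Agent.H851.KS

section lin

variable {C E : Type} [Field C] [CharZero C] [AddCommGroup E] [Module C E]
  [FiniteDimensional C E] {B : E →ₗ[C] E →ₗ[C] C} {T : End C E} {U : Submodule C E}

/-- vectors of opposite weights span a plane -/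
theorem dim_le_two (hU : U = ⨆ α, U ⊓ T.maxGenEigenspace α) (w : C → C)
    (H : ∀ α β x y, x ∈ U → x ∈ T.maxGenEigenspace α → y ∈ U → y ∈ T.maxGenEigenspace β → x ≠ 0 →
      w α ≠ 0 → w α + w β ≠ 0 → ∃ c : C, y = c • x)
    (hα : ∃ α x, x ∈ U ∧ x ∈ T.maxGenEigenspace α ∧ x ≠ 0 ∧ w α ≠ 0) : finrank C U ≤ 2 := by
  classical
  obtain ⟨α, x, hxU, hx, hx0, hwα⟩ := hα
  have key : ∃ x', U ≤ Submodule.span C {x, x'} := by
    by_cases hx' : ∃ β x', x' ∈ U ∧ x' ∈ T.maxGenEigenspace β ∧ x' ≠ 0 ∧ w β = -w α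
    · obtain ⟨β, x', hxU', hx', hx0', hwβ⟩ := hx'
      refine ⟨x', ?_⟩
      rw [hU]
      refine iSup_le fun δ y hy => ?_
      by_cases hδ : w δ = w α
      · obtain ⟨c, rfl⟩ := H α δ x y hxU hx hy.1 hy.2 hx0 hwα (by
          rw [hδ, ← two_mul]
          exact mul_ne_zero two_ne_zero hwα)
        exact Submodule.smul_mem _ _ (Submodule.subset_span (by simp))
      · obtain ⟨c, rfl⟩ := H β δ x' y hxU' hx' hy.1 hy.2 hx0' (by
          rw [hwβ]
          exact neg_ne_zero.2 hwα) (by
          rw [hwβ]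
          intro h1
          exact hδ (by linear_combination h1))
        exact Submodule.smul_mem _ _ (Submodule.subset_span (by simp))
    · refine ⟨x, ?_⟩
      rw [hU]
      refine iSup_le fun δ y hy => ?_
      by_cases hy0 : y = 0
      · rw [hy0]
        exact Submodule.zero_mem _
      by_cases hδ : w δ = -w α
      · exact absurd ⟨δ, y, hy.1, hy.2, hy0, hδ⟩ hx'
      · obtain ⟨c, rfl⟩ := H α δ x y hxU hx hy.1 hy.2 hx0 hwα (by
          intro h1
          exact hδ (by linear_combination h1))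
        exact Submodule.smul_mem _ _ (Submodule.subset_span (by simp))
  obtain ⟨x', hx'⟩ := key
  refine (Submodule.finrank_mono hx').trans ?_
  have h1 := finrank_span_finset_le_card (R := C) ({x, x'} : Finset E)
  rw [Set.finrank, Finset.coe_insert, Finset.coe_singleton] at h1
  exact h1.trans Finset.card_le_two

/-- elementary skew endomorphisms vanish only for proportional vectors -/
theorem prop_of_wdg (hB : ∀ x ∈ U, (∀ y ∈ U, B x y = 0) → x = 0) {x y : E} (hx : x ∈ U)
    (hx0 : x ≠ 0) (h : wdg B x y = 0) : ∃ c : C, y = c • x := by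
  obtain ⟨z, -, hz⟩ : ∃ z ∈ U, B x z ≠ 0 := by
    by_contra hcon
    push Not at hcon
    exact hx0 (hB x hx hcon)
  have h1 := LinearMap.congr_fun h z
  rw [wdg_apply, LinearMap.zero_apply, sub_eq_zero] at h1
  refine ⟨(B x z)⁻¹ * B y z, ?_⟩
  rw [← smul_smul, ← h1, smul_smul, inv_mul_cancel₀ hz, one_smul]

/-- two eigenvalues, with multiplicities -/
theorem pair_le {x y : E} {α β : C} (hx : x ∈ T.maxGenEigenspace α)
    (hy : y ∈ T.maxGenEigenspace β) (hx0 : x ≠ 0) (hxy : ∀ c : C, y ≠ c • x) :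
    ({α, β} : Multiset C) ≤ T.charpoly.roots := by
  classical
  have hne : T.charpoly ≠ 0 := (LinearMap.charpoly_monic T).ne_zero
  have hy0 : y ≠ 0 := fun h => hxy 0 (by rw [h, zero_smul])
  have hc : ∀ γ, T.charpoly.roots.count γ = finrank C (T.maxGenEigenspace γ) := by
    intro γ
    rw [Polynomial.count_roots, LinearMap.finrank_maxGenEigenspace_eq]
  have h1 : ∀ γ, (∃ z ∈ T.maxGenEigenspace γ, z ≠ 0) → 1 ≤ T.charpoly.roots.count γ := by
    rintro γ ⟨z, hz, hz0⟩
    rw [hc]
    have : Nontrivial (T.maxGenEigenspace γ) := ⟨⟨z, hz⟩, 0, fun h => hz0 (congrArg Subtype.val h)⟩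
    exact Module.finrank_pos
  by_cases hαβ : α = β
  · subst hαβ
    have h2 : 2 ≤ T.charpoly.roots.count α := by
      rw [hc]
      by_contra hcon
      have h3 : finrank C (T.maxGenEigenspace α) ≤ 1 := by omega
      obtain ⟨z, hz⟩ := finrank_le_one_iff.1 h3
      obtain ⟨a, ha⟩ := hz ⟨x, hx⟩
      obtain ⟨b, hb⟩ := hz ⟨y, hy⟩
      have ha' : a • (z : E) = x := congrArg Subtype.val ha
      have hb' : b • (z : E) = y := congrArg Subtype.val hb
      have ha0 : a ≠ 0 := by
        rintro rfl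
        exact hx0 (by rw [← ha', zero_smul])
      refine hxy (b * a⁻¹) ?_
      rw [← ha', smul_smul, mul_assoc, inv_mul_cancel₀ ha0, mul_one, hb']
    have h3 : ({α, α} : Multiset C) = Multiset.replicate 2 α := rfl
    rw [h3]
    exact Multiset.le_count_iff_replicate_le.1 h2
  · refine Multiset.le_iff_count.2 fun γ => ?_
    have h2 : ({α, β} : Multiset C).count γ ≤ 1 := by
      have h3 : ({α, β} : Multiset C).Nodup := by simp [hαβ]
      exact Multiset.nodup_iff_count_le_one.1 h3 γ
    by_cases h4 : γ = α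
    · rw [h4] at h2 ⊢
      exact h2.trans (h1 α ⟨x, hx, hx0⟩)
    by_cases h5 : γ = β
    · rw [h5] at h2 ⊢
      exact h2.trans (h1 β ⟨y, hy, hy0⟩)
    · have h6 : ({α, β} : Multiset C).count γ = 0 := by
        rw [Multiset.count_eq_zero]
        simp [h4, h5]
      rw [h6]
      exact Nat.zero_le _

end lin

end Pool.Agent.H851.KL
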