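import Pool.Agent.H851.KS.Num
import Pool.Agent.H851.KT.Frob

/-!
# The additive function of a Frobenius element at a place of degree one
-/

set_option autoImplicit false

namespace Pool.Agent.H851.KL

open Matrix Polynomial Filter Topology NumberField IsDedekindDomain
open Pool.Agent.NH56.HY Pool.Agent.H851.K3 Pool.Agent.H851.KT Pool.Agent.H851.KS
open Pool.Agent.TH118.SG

section

variable {K : Type} [Field K] [NumberField K] {ℓ : ℕ} [Fact ℓ.Prime] {n : Type}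
    [Fintype n] [DecidableEq n] {q : Matrix n n ℚ_[ℓ]} {S : Finset ℕ} {χ : GK K →* ℚ_[ℓ]}
    {Pol : HeightOneSpectrum (𝓞 K) → ℤ[X]} {ρ : GK K →* Matrix n n ℚ_[ℓ]}

open Classical in
/-- **The slopes of a Frobenius element.** -/
theorem exists_slopes (h : IsK3Type q S χ Pol ρ) {p : ℕ} [hpf : Fact p.Prime] (hpS : p ∉ S)
    {v : HeightOneSpectrum (𝓞 K)} (hv : Ideal.absNorm v.asIdeal = p) {σ : GK K}
    (hσ : IsFrobenius v σ) :
    ∃ (θ : Additive (PadicAlgCl ℓ)ˣ →+ PadicAlgCl ℓ) (w : PadicAlgCl ℓ → ℚ),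
      (∀ α ∈ (R χ ρ σ⁻¹).charpoly.roots, ext0 θ α = w α) ∧
      ((R χ ρ σ⁻¹).charpoly.roots.map fun α => 1 - (w α : ℝ)) = newton p (Pol v) ∧
      ∀ (Q : ℤ[X]) (j : ℤ), Q.Monic → ∀ γ : PadicAlgCl ℓ, γ ≠ 0 →
        aeval ((p : PadicAlgCl ℓ) ^ j * γ) Q = 0 →
        ∃ c : ℚ, ext0 θ γ = c ∧ (j - c : ℝ) ∈ newton p Q := by
  have hp1 : (1 : ℝ) < p := by exact_mod_cast hpf.out.one_lt
  obtain ⟨s⟩ := Pool.Agent.NH66.HY.Nwt.exists_hom ℚ (PadicAlgCl ℓ)
  obtain ⟨π⟩ := Pool.Agent.NH66.HY.Nwt.exists_hom ℚ (PadicAlgCl p)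
  obtain ⟨hmon, hweil⟩ := h.weil p hpS v hv
  have hroots := roots_eq h hpS hv hσ s
  set R0 := ((Pol v).map (Int.castRingHom (AlgebraicClosure ℚ))).roots with hR0
  have hp0 : (p : AlgebraicClosure ℚ) ≠ 0 := Nat.cast_ne_zero.2 hpf.out.ne_zero
  have hR0a : ∀ a ∈ R0, aeval a (Pol v) = 0 := by
    intro a ha
    have h2 := isRoot_of_mem_roots ha
    rw [IsRoot.def, eval_map] at h2
    rw [aeval_def, Subsingleton.elim (algebraMap ℤ (AlgebraicClosure ℚ)) (Int.castRingHom _)]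
    exact h2
  have hari := fun a ha => t_ARI.2 (Pol v) p 2 hmon hweil a (hR0a a ha)
  have hnp : ‖(p : PadicAlgCl p)‖ = (p : ℝ)⁻¹ := Pool.Agent.NH66.HY.Nwt.norm_nat p
  let A : PadicAlgCl ℓ → Prop := fun x => ∃ t, t ≠ 0 ∧ s t = x
  let ψ : PadicAlgCl ℓ → ℝ := fun x => if hx : ∃ t, s t = x then Real.logb p ‖π hx.choose‖ else 0
  have hψ : ∀ t, ψ (s t) = Real.logb p ‖π t‖ := by
    intro t
    have hx : ∃ t', s t' = s t := ⟨t, rfl⟩
    have e : ψ (s t) = Real.logb p ‖π hx.choose‖ := dif_pos hx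
    rw [e, s.injective hx.choose_spec]
  have hAψ : AddOn A ψ := by
    refine ⟨⟨1, one_ne_zero, map_one s⟩, ?_, ?_, ?_, ?_⟩
    · rintro _ _ ⟨t, ht, rfl⟩ ⟨u, hu, rfl⟩
      exact ⟨t * u, mul_ne_zero ht hu, map_mul s t u⟩
    · rintro _ ⟨t, ht, rfl⟩
      exact ⟨t⁻¹, inv_ne_zero ht, map_inv₀ s t⟩
    · rintro _ ⟨t, ht, rfl⟩
      exact (map_ne_zero s).2 ht
    · rintro _ _ ⟨t, ht, rfl⟩ ⟨u, hu, rfl⟩
      rw [← map_mul, hψ, hψ, hψ, map_mul, norm_mul,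
        Real.logb_mul (norm_ne_zero_iff.2 ((map_ne_zero π).2 ht))
          (norm_ne_zero_iff.2 ((map_ne_zero π).2 hu))]
  obtain ⟨θ, hθ⟩ := exists_theta hAψ
  let w : PadicAlgCl ℓ → ℚ := fun x => if hx : ∃ c : ℚ, ψ x = c then hx.choose else 0
  have hw : ∀ t, t ≠ 0 → ψ (s t) = w (s t) := by
    intro t ht
    have hx : ∃ c : ℚ, ψ (s t) = c := by
      rw [hψ]
      exact logb_rat p (π t) ((map_ne_zero π).2 ht)
    have e : w (s t) = hx.choose := dif_pos hx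
    rw [e]
    exact hx.choose_spec
  have hψr : ∀ a ∈ R0, ψ (s (a / p)) = Real.logb p ‖π a‖ + 1 := by
    intro a ha
    have h2 : ‖π a‖ ≠ 0 := norm_ne_zero_iff.2 ((map_ne_zero π).2 (hari a ha).1)
    rw [hψ, map_div₀, norm_div, map_natCast, hnp, Real.logb_div h2 (by positivity), Real.logb_inv,
      Real.logb_self_eq_one hp1]
    ring
  refine ⟨θ, w, ?_, ?_, ?_⟩
  · intro α hα
    rw [hroots, Multiset.mem_map] at hα
    obtain ⟨a, ha, rfl⟩ := hα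
    have h1 : a / (p : AlgebraicClosure ℚ) ≠ 0 := div_ne_zero (hari a ha).1 hp0
    exact hθ _ ⟨_, h1, rfl⟩ _ (hw _ h1)
  · rw [hroots, Multiset.map_map]
    unfold newton
    rw [t_ARI.1 (Pol v) (PadicAlgCl p) π, Multiset.map_map]
    refine Multiset.map_congr rfl fun a ha => ?_
    have h1 : a / (p : AlgebraicClosure ℚ) ≠ 0 := div_ne_zero (hari a ha).1 hp0
    simp only [Function.comp_apply]
    rw [← hw _ h1, hψr a ha]
    ring
  · intro Q j hQ γ hγ0 hγ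
    have hQ0 : Q.map (Int.castRingHom (PadicAlgCl ℓ)) ≠ 0 := (hQ.map _).ne_zero
    have h1 : (p : PadicAlgCl ℓ) ^ j * γ ∈ (Q.map (Int.castRingHom (PadicAlgCl ℓ))).roots := by
      rw [mem_roots hQ0, IsRoot.def, eval_map]
      rw [aeval_def, Subsingleton.elim (algebraMap ℤ (PadicAlgCl ℓ)) (Int.castRingHom _)] at hγ
      exact hγ
    rw [t_ARI.1 Q (PadicAlgCl ℓ) s, Multiset.mem_map] at h1
    obtain ⟨a, ha, hsa⟩ := h1
    have hpl : (p : PadicAlgCl ℓ) ≠ 0 := Nat.cast_ne_zero.2 hpf.out.ne_zero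
    have ha0 : a ≠ 0 := by
      rintro rfl
      rw [map_zero] at hsa
      exact mul_ne_zero (zpow_ne_zero _ hpl) hγ0 hsa.symm
    have hγ' : γ = s ((p : AlgebraicClosure ℚ) ^ (-j) * a) := by
      rw [map_mul, map_zpow₀, map_natCast, hsa, ← mul_assoc, ← zpow_add₀ hpl, neg_add_cancel,
        zpow_zero, one_mul]
    have hne : (p : AlgebraicClosure ℚ) ^ (-j) * a ≠ 0 := mul_ne_zero (zpow_ne_zero _ hp0) ha0
    have hψγ : ψ γ = j + Real.logb p ‖π a‖ := by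
      rw [hγ', hψ, map_mul, norm_mul, map_zpow₀, map_natCast, norm_zpow, hnp,
        Real.logb_mul (by positivity) (norm_ne_zero_iff.2 ((map_ne_zero π).2 ha0)), _root_.inv_zpow,
        ← _root_.zpow_neg, neg_neg, ← Real.rpow_intCast, Real.logb_rpow (by linarith) hp1.ne']
    have h2 : ψ γ = w γ := by
      rw [hγ']
      exact hw _ hne
    refine ⟨w γ, hθ _ ⟨_, hne, hγ'.symm⟩ _ h2, ?_⟩
    unfold newton
    rw [t_ARI.1 Q (PadicAlgCl p) π, Multiset.map_map, Multiset.mem_map]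
    refine ⟨a, ha, ?_⟩
    rw [← h2, hψγ]
    simp only [Function.comp_apply]
    ring

end

end Pool.Agent.H851.KL
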