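import Mathlib
import Pool.Agent.H851.KD.Crit
import Pool.Agent.H851.KL.Lin
import Pool.Agent.H851.KL.Theta

/-!
# One place decides independence
-/

set_option autoImplicit false
set_option linter.unusedSectionVars false
set_option linter.unusedVariables false

namespace Pool.Agent.H851.KL

open Module TensorProduct Pool.Agent.Y114.RM Pool.Agent.TH118.SG Polynomial Matrix Topology
open NumberField IsDedekindDomain
open Pool.Agent.H851.K3 Pool.Agent.H851.KT Pool.Agent.H851.TT Pool.Agent.H851.ZD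
open Pool.Agent.H851.IN Pool.Agent.H851.KS Pool.Agent.H851.KD
open Pool.Agent.NH56.HY (GK IsFrobenius tw tw_apply R chi_ne newton)
open Pool.Agent.H204R3.GP (FiniteIndexSemisimple)

variable {K : Type} [Field K] [NumberField K] {ℓ : ℕ} [hℓ : Fact ℓ.Prime] {n : Type}
    [Fintype n] [DecidableEq n] {q : Matrix n n ℚ_[ℓ]} {S : Finset ℕ} {χ : GK K →* ℚ_[ℓ]}
    {Pol : HeightOneSpectrum (𝓞 K) → ℤ[X]} {ρ : GK K →* Matrix n n ℚ_[ℓ]}
    {W : Type} [AddCommGroup W] [Module ℚ_[ℓ] W] [FiniteDimensional ℚ_[ℓ] W]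

/-- **One place.** -/
theorem one_place (h : IsK3Type q S χ Pol ρ) (hss : Semisimple ρ) (hc : ScalarEnds q χ ρ)
    (hd3 : 3 ≤ finrank ℚ_[ℓ] (orth q (tate χ ρ))) (hd4 : finrank ℚ_[ℓ] (orth q (tate χ ρ)) ≠ 4)
    {σ : Representation ℚ_[ℓ] (GK K) W} (hσ : FiniteIndexSemisimple σ) {p : ℕ}
    [hp : Fact p.Prime] (hpS : p ∉ S) {v : HeightOneSpectrum (𝓞 K)}
    (hv : Ideal.absNorm v.asIdeal = p) {g : GK K} (hg : IsFrobenius v g)
    (hns : ∃ s ∈ newton p (Pol v), s ≠ 1) {Q : ℤ[X]} {j : ℤ} (hQ : Q.Monic)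
    (hQ0 : aeval ((p : ℚ_[ℓ]) ^ j • σ g⁻¹) Q = 0)
    (hap : ∀ s t x y : ℝ, {s, t} ≤ newton p (Pol v) → x ∈ newton p Q → y ∈ newton p Q →
      x - y = s + t - 2 → s + t = 2) :
    ∀ X ∈ lieE χ ρ, ext1 X ∈ LT ((rep χ ρ).prod σ) := by
  obtain ⟨a, U, W', Fr⟩ := exists_frame h hss hc
  obtain ⟨L, hLT, hLie, hAd, -⟩ := Pool.Agent.Y41.RM.lieL' ℚ_[ℓ] ((n → ℚ_[ℓ]) × W) (GK K)
    ((rep χ ρ).prod σ)
  have hfss : FiniteIndexSemisimple ((rep χ ρ).prod σ) :=
    prod_semisimple (finiteIndexSemisimple hss) hσ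
  obtain ⟨𝔰, hcpl⟩ := exists_cpl hfss hLT hLie hAd
  have hd : ∀ X ∈ L, ∀ x, X x = (blk X x.1, blk2 X x.2) := fun Z hZ x => lt_diag ((hLT Z).1 hZ) x
  have hmap : L.map blk = lieE χ ρ := by
    refine le_antisymm ?_ ?_
    · rintro _ ⟨Z, hZ, rfl⟩
      exact lieE_of_lt (blk_mem ((hLT Z).1 hZ))
    · intro Y hY
      obtain ⟨Z, hZ, h1⟩ := lift_all h hss W σ Y hY
      exact ⟨Z, (hLT Z).2 hZ, h1⟩
  have hlin : lin (tateLie χ ρ) = L.map blk := hmap.symm
  have hsimple : ∀ I ≤ L.map blk, (∀ A ∈ L.map blk, ∀ Z ∈ I, A * Z - Z * A ∈ I) →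
      I = ⊥ ∨ I = L.map blk := by
    rw [hmap]
    exact lieE_simple Fr hd4
  have hskew : ∀ X ∈ L.map blk, Skew (form q) X := by
    rintro _ ⟨Z, hZ, rfl⟩
    exact skew_blk σ h ((hLT Z).1 hZ)
  -- the ideal of the elements which lift to elements acting trivially on `W`
  let J : Submodule ℚ_[ℓ] (End ℚ_[ℓ] (n → ℚ_[ℓ])) :=
    { carrier := {X | ∃ Z ∈ 𝔰, blk Z = X ∧ blk2 Z = 0}
      zero_mem' := ⟨0, 𝔰.zero_mem, map_zero _, map_zero _⟩
      add_mem' := by
        rintro _ _ ⟨Z, hZ, rfl, h2⟩ ⟨Z', hZ', rfl, h3⟩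
        exact ⟨Z + Z', 𝔰.add_mem hZ hZ', map_add _ _ _, by rw [map_add, h2, h3, add_zero]⟩
      smul_mem' := by
        rintro c _ ⟨Z, hZ, rfl, h2⟩
        exact ⟨c • Z, 𝔰.smul_mem c hZ, map_smul _ _ _, by rw [map_smul, h2, smul_zero]⟩ }
  have hJ1 : J ≤ L.map blk := by
    rintro _ ⟨Z, hZ, rfl, -⟩
    exact ⟨Z, hcpl.le hZ, rfl⟩
  have hJ2 : ∀ A ∈ L.map blk, ∀ X ∈ J, A * X - X * A ∈ J := by
    rintro _ ⟨A, hA, rfl⟩ _ ⟨Z, hZ, rfl, h2⟩
    refine ⟨A * Z - Z * A, hcpl.ideal A hA Z hZ, ?_, ?_⟩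
    · rw [map_sub, blk_mul ((hLT Z).1 (hcpl.le hZ)), blk_mul ((hLT A).1 hA)]
    · refine LinearMap.ext fun x => ?_
      rw [blk2_apply, LinearMap.sub_apply, Module.End.mul_apply, Module.End.mul_apply,
        hd Z (hcpl.le hZ), hd A hA, hd A hA, hd Z (hcpl.le hZ), h2]
      change blk2 A 0 - 0 = 0
      rw [map_zero, sub_zero]
  rcases hsimple J hJ1 hJ2 with hJ | hJ
  swap
  · intro X hX
    rw [← hmap, ← hJ] at hX
    obtain ⟨Z, hZ, h1, h2⟩ := hX
    have h3 : (ext1 X : End ℚ_[ℓ] ((n → ℚ_[ℓ]) × W)) = Z := by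
      refine LinearMap.ext fun z => ?_
      rw [ext1_apply, hd Z (hcpl.le hZ), h1, h2]
      rfl
    rw [h3]
    exact (hLT _).1 (hcpl.le hZ)
  exfalso
  -- elements which act trivially on `W` are zero, over the extension field, too
  have hJC : ∀ Z ∈ bcS (PadicAlgCl ℓ) 𝔰, bC2 Z = 0 → Z = 0 := by
    intro Z hZ h2
    refine eq_zero_of_pM' Z fun π => hcpl.inj _ (mem_bc.1 hZ π) ?_
    have h3 : (blk (pM π Z) : End ℚ_[ℓ] (n → ℚ_[ℓ])) ∈ J := by
      refine ⟨pM π Z, mem_bc.1 hZ π, rfl, ?_⟩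
      rw [← pM_bC2, h2]
      exact LinearMap.ext fun x => by
        rw [pM_apply, LinearMap.zero_apply, map_zero, LinearMap.zero_apply]
    rw [hJ] at h3
    exact (Submodule.mem_bot _).1 h3
  obtain ⟨θ, w, hw1, hw2, hw3⟩ := exists_slopes h hpS hv hg
  obtain ⟨N, hN⟩ := exists_op ((((rep χ ρ).prod σ) g⁻¹).baseChange (PadicAlgCl ℓ))
    (fun z => ext0 θ z)
  have hNL : N ∈ bcS (PadicAlgCl ℓ) L :=
    Pool.Agent.R913.Adj.op_mem (ρ := (rep χ ρ).prod σ) (PadicAlgCl ℓ) hLT g⁻¹ θ N hN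
  have hNV : IsOp θ ((rep χ ρ g⁻¹).baseChange (PadicAlgCl ℓ)) (bC N) := bC_op hN
  have hNσ : ∀ β, ∀ x ∈ Module.End.maxGenEigenspace ((σ g⁻¹).baseChange (PadicAlgCl ℓ)) β,
      bC2 N x = ext0 θ β • x := by
    intro β x hx
    have h1 := rs_op (ι := LinearMap.id) (p := LinearMap.id) (fun x => rfl) hN (τ := σ g⁻¹)
      (fun x => rfl) β x hx
    rw [← h1]
    change bC2 N x = (LinearMap.id : W →ₗ[ℚ_[ℓ]] W).baseChange (PadicAlgCl ℓ)
      (bC2 N ((LinearMap.id : W →ₗ[ℚ_[ℓ]] W).baseChange (PadicAlgCl ℓ) x))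
    rw [LinearMap.baseChange_id]
    rfl
  have hs := bcB_symm (C := PadicAlgCl ℓ) (form_symm h.symm)
  have hNS : bC N ∈ bcS (PadicAlgCl ℓ) (L.map blk) := bC_mem hNL
  have hNS' : bC N ∈ bcS (PadicAlgCl ℓ) (lin (tateLie χ ρ)) := by rwa [hlin]
  have hNsk : Skew (bcB (PadicAlgCl ℓ) (form q)) (bC N) := bcS_skew hskew _ hNS
  set TV : End (PadicAlgCl ℓ) (PadicAlgCl ℓ ⊗[ℚ_[ℓ]] (n → ℚ_[ℓ])) :=
    (rep χ ρ g⁻¹).baseChange (PadicAlgCl ℓ) with hTV
  have hch : TV.charpoly = (R χ ρ g⁻¹).charpoly := charpoly_rep χ ρ g⁻¹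
  obtain ⟨κ, n₀, hn₀, hNn, hκ0, hκ⟩ := cpl_split hcpl hNL
  have hn₀b : bC n₀ = bC N := by rw [hNn, map_add, hκ0, zero_add]
  -- the transcendental part
  have hUT : ∀ x ∈ TC (PadicAlgCl ℓ) (orth q (tate χ ρ)), TV x ∈
      TC (PadicAlgCl ℓ) (orth q (tate χ ρ)) := by
    intro x hx
    refine TC_induction (P := fun x => TV x ∈ TC (PadicAlgCl ℓ) (orth q (tate χ ρ))) ?_ ?_ ?_ hx
    · rw [map_zero]
      exact Submodule.zero_mem _
    · intro c t ht
      rw [hTV, LinearMap.baseChange_tmul]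
      exact tmul_mem_TC (orth_rep h g⁻¹ ht) c
    · intro x y hx hy
      rw [map_add]
      exact Submodule.add_mem _ hx hy
  have hfr : finrank (PadicAlgCl ℓ) (TC (PadicAlgCl ℓ) (orth q (tate χ ρ))) =
      finrank ℚ_[ℓ] (orth q (tate χ ρ)) := finrank_TC
  have h2 : finrank (PadicAlgCl ℓ) (TC (PadicAlgCl ℓ) (orth q (tate χ ρ))) ≤ 2 := by
    refine dim_le_two (T := TV) (Submodule.eq_iSup_inf_genEigenspace ⊤ hUT
      (Module.End.iSup_maxGenEigenspace_eq_top TV)) (fun z => ext0 θ z) ?_ ?_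
    · intro α β x y hxU hx hyU hy hx0 hwα hwαβ
      by_contra hcon
      push Not at hcon
      -- the slopes of the pair
      have hpair := pair_le hx hy hx0 hcon
      rw [hch] at hpair
      have hα : α ∈ (R χ ρ g⁻¹).charpoly.roots := Multiset.mem_of_le hpair (by simp)
      have hβ : β ∈ (R χ ρ g⁻¹).charpoly.roots := Multiset.mem_of_le hpair (by simp)
      have hpair' : ({1 - (w α : ℝ), 1 - (w β : ℝ)} : Multiset ℝ) ≤ newton p (Pol v) := by
        rw [← hw2]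
        exact Multiset.map_le_map hpair
      -- the lift
      obtain ⟨Z, hZ, hZb⟩ := cpl_onto (x := wdg (bcB (PadicAlgCl ℓ) (form q)) x y) hcpl
        (by rw [← hlin]; exact TC_wdg Fr hxU hyU)
      have hZ0 : bC2 Z ≠ 0 := by
        intro h3
        have h4 := hJC Z hZ h3
        rw [h4, map_zero] at hZb
        obtain ⟨c, hc'⟩ := prop_of_wdg (TC_nondeg (form_nondeg h.symm h.nondeg) Fr) hxU hx0
          hZb.symm
        exact hcon c hc'
      have hbr : n₀ * Z = Z * n₀ + (ext0 θ α + ext0 θ β) • Z := by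
        refine cpl_lift hcpl hd hn₀ hZ (Submodule.smul_mem _ _ hZ) ?_
        rw [map_smul, hn₀b, hZb, br_add hs hNsk, hNV α x hx, hNV β y hy, wdg_smul_left, wdg_smul,
          add_smul]
      have hbr' : N * Z = Z * N + (ext0 θ α + ext0 θ β) • Z := by
        rw [hNn, add_mul, mul_add, hbr, hκ _ hZ]
        abel
      have hbr2 := congrArg bC2 hbr'
      rw [map_add, map_smul, bC2_mul hd (bcS_mono hcpl.le hZ), bC2_mul hd hNL] at hbr2
      -- a vector which is not killed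
      obtain ⟨γ, u, hu, hZu⟩ : ∃ γ, ∃ u ∈ Module.End.maxGenEigenspace
          ((σ g⁻¹).baseChange (PadicAlgCl ℓ)) γ, bC2 Z u ≠ 0 := by
        by_contra hcon'
        push Not at hcon'
        apply hZ0
        have h3 : (⊤ : Submodule (PadicAlgCl ℓ) (PadicAlgCl ℓ ⊗[ℚ_[ℓ]] W)) ≤
            LinearMap.ker (bC2 Z) := by
          rw [← Module.End.iSup_maxGenEigenspace_eq_top ((σ g⁻¹).baseChange (PadicAlgCl ℓ))]
          exact iSup_le fun γ u hu => hcon' γ u hu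
        exact LinearMap.ext fun u => h3 trivial
      have hNu : bC2 N (bC2 Z u) = (ext0 θ γ + (ext0 θ α + ext0 θ β)) • bC2 Z u := by
        have h3 : bC2 N (bC2 Z u) = bC2 Z (bC2 N u) + (ext0 θ α + ext0 θ β) • bC2 Z u :=
          LinearMap.congr_fun hbr2 u
        rw [h3, hNσ γ u hu, map_smul, add_smul (ext0 θ γ)]
      obtain ⟨γ', hγ', htγ'⟩ := eig_of (t := fun z => ext0 θ z) hNσ hNu hZu
      -- the slopes of `W`
      have hinv : ∀ γ, Module.End.maxGenEigenspace ((σ g⁻¹).baseChange (PadicAlgCl ℓ)) γ ≠ ⊥ →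
          γ ≠ 0 ∧ aeval ((p : PadicAlgCl ℓ) ^ j * γ) Q = 0 := by
        intro γ hγ
        constructor
        · rintro rfl
          have h3 : Module.End.HasEigenvalue ((σ g⁻¹).baseChange (PadicAlgCl ℓ)) 0 := by
            have h4 : Module.End.HasUnifEigenvalue ((σ g⁻¹).baseChange (PadicAlgCl ℓ)) 0 ⊤ := hγ
            exact h4.lt zero_lt_one
          obtain ⟨z, hz⟩ := h3.exists_hasEigenvector
          have h4 := hz.apply_eq_smul
          rw [zero_smul] at h4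
          apply hz.2
          have h5 : (σ g).baseChange (PadicAlgCl ℓ) ∘ₗ (σ g⁻¹).baseChange (PadicAlgCl ℓ) =
              LinearMap.id := by
            rw [← LinearMap.baseChange_comp]
            have h6 : σ g ∘ₗ σ g⁻¹ = LinearMap.id := by
              change σ g * σ g⁻¹ = 1
              rw [← map_mul, mul_inv_cancel, map_one]
            rw [h6, LinearMap.baseChange_id]
          have h6 := LinearMap.congr_fun h5 z
          rw [LinearMap.comp_apply, h4, map_zero] at h6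
          exact h6.symm
        · have h3 := aeval_bc (C := PadicAlgCl ℓ) (σ g⁻¹) ((p : ℚ_[ℓ]) ^ j) hQ0
          rw [map_zpow₀, map_natCast] at h3
          exact root_of_gen h3 hγ
      have hγ : Module.End.maxGenEigenspace ((σ g⁻¹).baseChange (PadicAlgCl ℓ)) γ ≠ ⊥ := by
        intro h3
        rw [h3, Submodule.mem_bot] at hu
        rw [hu, map_zero] at hZu
        exact hZu rfl
      obtain ⟨c, hc1, hc2⟩ := hw3 Q j hQ γ (hinv γ hγ).1 (hinv γ hγ).2
      obtain ⟨c', hc1', hc2'⟩ := hw3 Q j hQ γ' (hinv γ' hγ').1 (hinv γ' hγ').2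
      have hcc : c' = c + (w α + w β) := by
        have h3 : ext0 θ γ' = ext0 θ γ + (ext0 θ α + ext0 θ β) := htγ'
        rw [hc1, hc1', hw1 α hα, hw1 β hβ] at h3
        exact_mod_cast h3
      have hfin := hap _ _ _ _ hpair' hc2' hc2 (by
        rw [hcc]
        push_cast
        ring)
      apply hwαβ
      rw [hw1 α hα, hw1 β hβ]
      have h3 : (w α : ℝ) + w β = 0 := by linarith
      have h4 : w α + w β = 0 := by exact_mod_cast h3
      exact_mod_cast h4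
    · obtain ⟨s, hs1, hs2⟩ := hns
      rw [← hw2, Multiset.mem_map] at hs1
      obtain ⟨α, hα, rfl⟩ := hs1
      have hwα : w α ≠ 0 := by
        intro h3
        apply hs2
        rw [h3, Rat.cast_zero, sub_zero]
      have hwα' : ext0 θ α ≠ 0 := by
        rw [hw1 α hα]
        exact_mod_cast hwα
      have hroot : (R χ ρ g⁻¹).charpoly.IsRoot α := isRoot_of_mem_roots hα
      have h3 : TV.maxGenEigenspace α ≠ ⊥ := by
        intro h4
        have h5 := LinearMap.finrank_maxGenEigenspace_eq TV α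
        rw [h4, finrank_bot, hch] at h5
        have h6 := (rootMultiplicity_pos (Matrix.charpoly_monic (R χ ρ g⁻¹)).ne_zero).2 hroot
        omega
      obtain ⟨x, hx, hx0⟩ := Submodule.exists_mem_ne_zero_of_ne_bot h3
      refine ⟨α, x, ?_, hx, hx0, hwα'⟩
      have h4 := TC_range Fr hNS' x
      rw [hNV α x hx] at h4
      have h5 := Submodule.smul_mem _ (ext0 θ α)⁻¹ h4
      rwa [smul_smul, inv_mul_cancel₀ hwα', one_smul] at h5
  omega

end Pool.Agent.H851.KL
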