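import Mathlib
import Pool.Agent.H851.KS.Pub
import Pool.Agent.H851.KL.Main

/-!
# The definitions used in the statement
-/

set_option autoImplicit false
set_option linter.unusedSectionVars false
set_option linter.unusedVariables false

namespace Pool.Agent.H851.KL

open Matrix Finset Function Module Pool.Agent.Y114.RM
open NumberField IsDedekindDomain Polynomial
open Pool.Agent.H851.K3 Pool.Agent.H851.KT Pool.Agent.H851.TT Pool.Agent.H851.ZD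
open Pool.Agent.H851.IN Pool.Agent.H851.KS
open Pool.Agent.NH56.HY (GK IsFrobenius tw tw_apply chi_ne newton)
open Pool.Agent.H204R3.GP (FiniteIndexSemisimple)

variable {K : Type} [Field K] [NumberField K] {ℓ : ℕ} [hℓ : Fact ℓ.Prime] {n : Type}
    [Fintype n] [DecidableEq n] {q : Matrix n n ℚ_[ℓ]} {S : Finset ℕ} {χ : GK K →* ℚ_[ℓ]}
    {Pol : HeightOneSpectrum (𝓞 K) → ℤ[X]} {ρ : GK K →* Matrix n n ℚ_[ℓ]} {m : Type} [Fintype m]
    [DecidableEq m]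

/-- At the place `v` of degree one, with the residue characteristic `p`, `V` is not supersingular (it has a
slope which is not equal to one), the product of `p ^ j` and the geometric Frobenius element is on `W` a zero of a monic
polynomial `Q` with integral coefficients, and the difference of two slopes of `Q` is never equal to a slope
`s + t - 2` of `Λ² V(1)`, where `s` and `t` are slopes of `V`, with the exception of zero. -/
def ApartAt (Pol : HeightOneSpectrum (𝓞 K) → ℤ[X]) (σ : GK K →* Matrix m m ℚ_[ℓ])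
    (v : HeightOneSpectrum (𝓞 K)) (p : ℕ) [Fact p.Prime] : Prop :=
  Ideal.absNorm v.asIdeal = p ∧ (∃ s ∈ newton p (Pol v), s ≠ 1) ∧
    ∃ (g : GK K) (Q : ℤ[X]) (j : ℤ), IsFrobenius v g ∧ Q.Monic ∧
      (aeval ((p : ℚ_[ℓ]) ^ j • σ g⁻¹) Q : Matrix m m ℚ_[ℓ]) = 0 ∧
      ∀ s t x y : ℝ, {s, t} ≤ newton p (Pol v) → x ∈ newton p Q → y ∈ newton p Q →
        x - y = s + t - 2 → s + t = 2

theorem splits_of_apart (h : IsK3Type q S χ Pol ρ) (hss : Semisimple ρ) (hc : ScalarEnds q χ ρ)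
    (hd3 : 3 ≤ finrank ℚ_[ℓ] (orth q (tate χ ρ))) (hd4 : finrank ℚ_[ℓ] (orth q (tate χ ρ)) ≠ 4)
    {σ : GK K →* Matrix m m ℚ_[ℓ]} (hσs : Semisimple σ) {v : HeightOneSpectrum (𝓞 K)} {p : ℕ}
    [hp : Fact p.Prime] (hpS : p ∉ S) (hσ : ApartAt Pol σ v p) : Splits χ ρ σ := by
  obtain ⟨hv, hns, g, Q, j, hg, hQ, hQ0, hap⟩ := hσ
  intro X hX
  refine one_place h hss hc hd3 hd4 (matRep_semisimple hσs) hpS hv hg hns hQ (j := j) ?_ hap _
    (lin_mem_lieE hX)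
  have h4 : aeval ((p : ℚ_[ℓ]) ^ j • matRep σ g⁻¹) Q =
      Matrix.toLinAlgEquiv' (aeval ((p : ℚ_[ℓ]) ^ j • σ g⁻¹) Q : Matrix m m ℚ_[ℓ]) := by
    have h5 : (p : ℚ_[ℓ]) ^ j • matRep σ g⁻¹ =
        Matrix.toLinAlgEquiv' ((p : ℚ_[ℓ]) ^ j • σ g⁻¹) := by
      rw [map_smul]
      rfl
    rw [h5, aeval_def, aeval_def]
    have h6 := Polynomial.hom_eval₂ Q (algebraMap ℤ (Matrix m m ℚ_[ℓ]))
      ((Matrix.toLinAlgEquiv' : Matrix m m ℚ_[ℓ] ≃ₐ[ℚ_[ℓ]] _) :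
        Matrix m m ℚ_[ℓ] →+* End ℚ_[ℓ] (m → ℚ_[ℓ])) ((p : ℚ_[ℓ]) ^ j • σ g⁻¹)
    rw [← RingHom.ext_int (((Matrix.toLinAlgEquiv' : Matrix m m ℚ_[ℓ] ≃ₐ[ℚ_[ℓ]] _) :
        Matrix m m ℚ_[ℓ] →+* End ℚ_[ℓ] (m → ℚ_[ℓ])).comp (algebraMap ℤ (Matrix m m ℚ_[ℓ])))
        (algebraMap ℤ (End ℚ_[ℓ] (m → ℚ_[ℓ])))]
    exact h6.symm
  rw [h4, hQ0, map_zero]

end Pool.Agent.H851.KL
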